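import Mathlib

namespace Pool.Agent.Results.MP_824d98_co.NotTransitive

open SimpleGraph

/-- `N_k(x, G)`: the subgraph induced on the vertices at distance exactly `k` from `x`. -/
abbrev nbhd {V : Type} (G : SimpleGraph V) (k : ℕ) (x : V) :
    SimpleGraph {y | G.edist x y = k} := G.induce {y | G.edist x y = k}

abbrev VV := ZMod 6 × ZMod 6 × ZMod 2

def S (d : VV) : Bool :=
  !(d.1 == 0 && d.2.1 == 0) && ((d.1 == 0 || d.2.1 == 0 || d.1 + d.2.1 == 0) == (d.2.2 == 0))

theorem S_neg : ∀ d, S (-d) = S d := by decide +kernel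

def G0 : SimpleGraph VV where
  Adj x y := S (y - x) = true
  symm := ⟨fun x y h => by rw [← neg_sub, S_neg]; exact h⟩
  loopless := ⟨fun x h => by rw [sub_self] at h; exact absurd h (by decide)⟩

instance : DecidableRel G0.Adj := fun x y => inferInstanceAs (Decidable (S (y - x) = true))

def ε : VV := (0, 0, 1)

theorem d1 (x y : VV) : G0.edist x y = (1 : ℕ) ↔ S (y - x) = true := edist_eq_one_iff_adj

theorem d2 (x y : VV) : G0.edist x y = (2 : ℕ) ↔ S (y - (x + ε)) = true := by
  have k1 : ∀ d : VV, S (d - ε) = true ↔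
      d ≠ 0 ∧ ¬ S d = true ∧ ∃ z, S z = true ∧ S (d - z) = true := by decide +kernel
  have e : y - (x + ε) = y - x - ε := by abel
  rw [e, k1]
  constructor
  · intro h
    obtain ⟨p, hp⟩ := exists_walk_of_edist_eq_coe h
    refine ⟨fun e => ?_, fun e => ?_, ?_⟩
    · rw [sub_eq_zero.1 e, edist_self] at h
      exact absurd h (by decide)
    · rw [(d1 x y).2 e] at h
      exact absurd h (by decide)
    · match p, hp with
      | .cons (v := z) h1 (.cons h2 .nil), _ =>
        exact ⟨z - x, h1, by rw [sub_sub_sub_cancel_right]; exact h2⟩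
  · rintro ⟨h1, h2, z, h3, h4⟩
    have a1 : G0.Adj x (x + z) := by
      show S (x + z - x) = true
      rwa [add_sub_cancel_left]
    have a2 : G0.Adj (x + z) y := by
      show S (y - (x + z)) = true
      rwa [← sub_sub]
    have h5 := edist_le (Walk.cons a1 (Walk.cons a2 Walk.nil))
    have h6 : G0.edist x y ≠ 0 := fun e => h1 (by rw [edist_eq_zero_iff.1 e, sub_self])
    have h7 : G0.edist x y ≠ 1 := fun e => h2 ((d1 x y).1 e)
    simp only [Walk.length_cons, Walk.length_nil] at h5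
    generalize G0.edist x y = m at *
    induction m using ENat.recTopCoe with
    | top => simp at h5
    | coe m =>
      norm_cast at *
      omega

abbrev H0 : SimpleGraph {d : VV // S d = true} := G0.induce {d | S d = true}

def shift (T : Set VV) (x : VV) (h : ∀ y, y ∈ T ↔ S (y - x) = true) : G0.induce T ≃g H0 where
  toFun y := ⟨y.1 - x, (h _).1 y.2⟩
  invFun d := ⟨d.1 + x, (h _).2 (by rw [add_sub_cancel_right]; exact d.2)⟩
  left_inv y := by simp
  right_inv d := by simp
  map_rel_iff' := by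
    intro a b
    show S (b.1 - x - (a.1 - x)) = true ↔ S (b.1 - a.1) = true
    rw [sub_sub_sub_cancel_right]

theorem reg (v : {d : VV // S d = true}) : (H0.neighborSet v).ncard = 18 := by
  have key : ∀ v : VV, S v = true →
      (Finset.univ.filter fun y => S y = true ∧ S (y - v) = true).card = 18 := by decide +kernel
  rw [← key v.1 v.2, ← Set.ncard_coe_finset,
    ← Set.ncard_image_of_injective _ Subtype.val_injective]
  congr 1
  ext y
  simp only [Set.mem_image, mem_neighborSet, Finset.coe_filter, Finset.mem_univ, true_and,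
    Set.mem_ofPred_eq]
  constructor
  · rintro ⟨z, h, rfl⟩
    exact ⟨z.2, h⟩
  · rintro ⟨h1, h2⟩
    exact ⟨⟨y, h1⟩, h2, rfl⟩

theorem ntr (f : H0 ≃g H0) : f ⟨(0, 3, 0), by decide⟩ ≠ ⟨(0, 1, 0), by decide⟩ := by
  intro h
  have key : ∀ a : VV, S a = true → G0.Adj (0, 1, 0) a →
      ∀ b : VV, S b = true → G0.Adj (0, 1, 0) b → G0.Adj a b →
      ∀ c : VV, S c = true → G0.Adj (0, 1, 0) c → G0.Adj a c → G0.Adj b c →
      ∀ d : VV, S d = true → G0.Adj (0, 1, 0) d → G0.Adj a d → G0.Adj b d → G0.Adj c d →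
      ∀ e : VV, S e = true → G0.Adj (0, 1, 0) e → G0.Adj a e → G0.Adj b e → G0.Adj c e →
      ¬ G0.Adj d e := by
    set_option synthInstance.maxSize 4000 in decide +kernel
  have A : ∀ a b, H0.Adj a b → G0.Adj (f a).1 (f b).1 := fun a b h => f.map_rel_iff.2 h
  have B : ∀ b, H0.Adj ⟨(0, 3, 0), by decide⟩ b → G0.Adj (0, 1, 0) (f b).1 := fun b hb => by
    have := A _ b hb
    rwa [h] at this
  exact key
    (f ⟨(1, 1, 1), by decide⟩).1 (f _).2 (B _ (by decide))
    (f ⟨(1, 4, 1), by decide⟩).1 (f _).2 (B _ (by decide)) (A _ _ (by decide))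
    (f ⟨(3, 0, 0), by decide⟩).1 (f _).2 (B _ (by decide)) (A _ _ (by decide)) (A _ _ (by decide))
    (f ⟨(3, 3, 0), by decide⟩).1 (f _).2 (B _ (by decide)) (A _ _ (by decide)) (A _ _ (by decide))
    (A _ _ (by decide))
    (f ⟨(4, 1, 1), by decide⟩).1 (f _).2 (B _ (by decide)) (A _ _ (by decide)) (A _ _ (by decide))
    (A _ _ (by decide)) (A _ _ (by decide))

theorem result : ∃ (W : Type) (_ : Finite W) (H : SimpleGraph W),
    (∃ d : ℕ, ∀ v, (H.neighborSet v).ncard = d) ∧
    (∃ (V : Type) (_ : Finite V) (_ : Nonempty V) (G : SimpleGraph V),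
      ∀ x, Nonempty (nbhd G 1 x ≃g H) ∧ Nonempty (nbhd G 2 x ≃g H)) ∧
    ¬ ∀ u v : W, ∃ f : H ≃g H, f u = v :=
  ⟨_, inferInstance, H0, ⟨18, reg⟩, ⟨VV, inferInstance, inferInstance, G0, fun x =>
    ⟨⟨shift _ x (d1 x)⟩, ⟨shift _ (x + ε) (d2 x)⟩⟩⟩, fun h => by
      obtain ⟨f, hf⟩ := h ⟨(0, 3, 0), by decide⟩ ⟨(0, 1, 0), by decide⟩
      exact ntr f hf⟩

end Pool.Agent.Results.MP_824d98_co.NotTransitive
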